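import Pool.Agent.W206.ND.Stm

/-! Digits and fractional parts. -/

set_option autoImplicit false

namespace Pool.Agent.W856.ND.DG

open Pool.Agent.W206.ND

theorem main : S_DG := by
  intro b y d hb _hd
  have hb0 : (0 : ℝ) < b := by
    have : 0 < b := by omega
    exact_mod_cast this
  have hf0 := Int.fract_nonneg y
  have hf1 := Int.fract_lt_one y
  have h1 : ⌊y * b⌋ = ⌊Int.fract y * b⌋ + ⌊y⌋ * (b : ℤ) := by
    have h : y * b = Int.fract y * b + ((⌊y⌋ * (b : ℤ) : ℤ) : ℝ) := by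
      push_cast
      rw [← add_mul, Int.fract_add_floor]
    rw [h, Int.floor_add_intCast]
  have h2 : 0 ≤ ⌊Int.fract y * b⌋ := Int.floor_nonneg.2 (by positivity)
  have h3 : ⌊Int.fract y * b⌋ < (b : ℤ) := by
    rw [Int.floor_lt]
    push_cast
    nlinarith
  have h4 : ⌊y * b⌋ % (b : ℤ) = ⌊Int.fract y * b⌋ := by
    rw [h1, Int.add_mul_emod_self_right, Int.emod_eq_of_lt h2 h3]
  rw [h4, Int.floor_eq_iff, div_le_iff₀ hb0, lt_div_iff₀ hb0]
  push_cast
  exact Iff.rfl

theorem zf : S_ZF := by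
  classical
  intro b x N hb
  unfold Z0
  rw [Finset.card_filter]
  push_cast
  refine Finset.sum_nbij' (fun i => i - 1) (fun n => n + 1) ?_ ?_ ?_ ?_ ?_
  · intro i hi
    rw [Finset.mem_Icc] at hi
    rw [Finset.mem_range]
    omega
  · intro n hn
    rw [Finset.mem_range] at hn
    rw [Finset.mem_Icc]
    omega
  · intro i hi
    rw [Finset.mem_Icc] at hi
    show i - 1 + 1 = i
    omega
  · intro n _
    show n + 1 - 1 = n
    omega
  · intro i hi
    rw [Finset.mem_Icc] at hi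
    obtain ⟨n, rfl⟩ : ∃ n, i = n + 1 := ⟨i - 1, by omega⟩
    have h := main b (x * (b : ℝ) ^ n) 0 hb (by omega)
    have e : x * (b : ℝ) ^ n * b = x * (b : ℝ) ^ (n + 1) := by
      rw [pow_succ, mul_assoc]
    rw [e] at h
    simp only [Nat.cast_zero, zero_div, zero_add] at h
    show (if ⌊x * (b : ℝ) ^ (n + 1)⌋ % (b : ℤ) = 0 then (1 : ℝ) else 0) =
      ff b (x * (b : ℝ) ^ (n + 1 - 1))
    rw [Nat.add_sub_cancel]
    unfold ff
    by_cases hz : ⌊x * (b : ℝ) ^ (n + 1)⌋ % (b : ℤ) = 0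
    · rw [if_pos hz, if_pos (h.1 hz).2]
    · rw [if_neg hz, if_neg]
      intro hlt
      exact hz (h.2 ⟨Int.fract_nonneg _, hlt⟩)

end Pool.Agent.W856.ND.DG
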